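import Pool.Agent.H61.KW.TA

namespace Pool.Agent.H5.KW

open Set Pool.Agent.H61.KV Pool.Agent.H61.KW

theorem pf_SG2 (h : T_SEG) (h2 : T_SPG) : T_SG2 := by
  intro V _ _ _ C q g s hC hF hg hft hov hmin hs hrk
  have hq := hF.1
  have hsC := mem_C hs
  have hgsC := hC.add g hg s hsC
  have hdisj : ∀ v, v ∈ Sp C g → v ∈ Sp C s → v = 0 := by
    intro v hv1 hv2
    have hvq : v ∈ Sp C q := sp_mono hC hq hs hv2
    have h3 := h2 V C q g 0 hC hF hg hC.zero (fun t ht1 ht2 => by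
      have h0 := foot_disj hC hF hg hft ht2 ht1
      rw [h0]
      exact self hC hC.zero) v hvq hv1
    exact sp_of_zero hC h3
  have hle : Sp C g ⊔ Sp C s ≤ Sp C (g + s) :=
    sup_le (sp_mono hC hgsC (left_fc hC hg hsC)) (sp_mono hC hgsC (right_fc hC hg hsC))
  have hinf : Sp C g ⊓ Sp C s = ⊥ := by
    rw [eq_bot_iff]
    intro v hv
    rw [hdisj v hv.1 hv.2]
    exact Submodule.zero_mem _
  have hfr := Submodule.finrank_sup_add_finrank_inf_eq (Sp C g) (Sp C s)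
  rw [hinf, finrank_bot, add_zero] at hfr
  have heq : Sp C g ⊔ Sp C s = Sp C (g + s) :=
    Submodule.eq_of_le_of_finrank_eq hle (hfr.trans hrk.symm)
  refine ⟨hg, hsC, hdisj, fun r hr => ?_⟩
  have hrC := mem_C hr
  have h3 : r ∈ Sp C g ⊔ Sp C q := by
    have h4 : r ∈ Sp C g ⊔ Sp C s := by rw [heq]; exact mem_sp hr
    exact sup_le_sup_left (sp_mono hC hq hs) _ h4
  obtain ⟨u, hu, v, hv, rfl⟩ := h V C q g hC hF hg hft hov hmin r hrC h3
  have hv' : v ∈ Fc C (g + s) := (face hC hgsC (mem_C hu) (mem_C hv) hr).2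
  exact ⟨u, hu, v, foot_face hC hq hg hs hft hv hv', rfl⟩

end Pool.Agent.H5.KW
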