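import Pool.Agent.H61.KW.TA

namespace Pool.Agent.H5.KW

open Set Pool.Agent.H61.KV Pool.Agent.H61.KW

theorem pf_SMD (_h : T_DSB) : T_SMD := by
  intro V _ _ _ C a b q k l hC hds hsa hsb hq hq1 hq2
  obtain ⟨x, hxl, hxe, hxm, hxg⟩ := hsa
  obtain ⟨y, hyl, hye, hym, hyg⟩ := hsb
  have ha := hds.1
  have hb := hds.2.1
  have hab : a + b ∈ C := hC.add a ha b hb
  have hFc : Fc C (a + b) = Fc C q := fc_eq hC hq hq2 hq1
  refine ⟨Fin.append x y, ?_, ?_, ?_, ?_⟩
  · have h1 : LinearIndependent ℝ (Sum.elim x y) := by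
      refine hxl.sum_type hyl ?_
      rw [Submodule.disjoint_def]
      intro v hv1 hv2
      refine hds.2.2.1 v ?_ ?_
      · refine (Submodule.span_le.2 ?_) hv1
        rintro _ ⟨i, rfl⟩
        exact mem_sp (hxm i)
      · refine (Submodule.span_le.2 ?_) hv2
        rintro _ ⟨i, rfl⟩
        exact mem_sp (hym i)
    have h2 : Fin.append x y ∘ finSumFinEquiv = Sum.elim x y := by
      funext i
      rcases i with i | i <;> simp
    rw [← h2] at h1
    exact (linearIndependent_equiv finSumFinEquiv).1 h1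
  · intro i
    refine Fin.addCases (fun i => ?_) (fun i => ?_) i
    · rw [Fin.append_left]; exact hxe i
    · rw [Fin.append_right]; exact hye i
  · intro i
    rw [← hFc]
    refine Fin.addCases (fun i => ?_) (fun i => ?_) i
    · rw [Fin.append_left]; exact tra hC hab (left_fc hC ha hb) (hxm i)
    · rw [Fin.append_right]; exact tra hC hab (right_fc hC ha hb) (hym i)
  · intro r hr
    rw [← hFc] at hr
    obtain ⟨u, hu, v, hv, rfl⟩ := hds.2.2.2 r hr
    obtain ⟨c, hc, rfl⟩ := hxg u hu
    obtain ⟨d, hd, rfl⟩ := hyg v hv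
    refine ⟨Fin.append c d, ?_, ?_⟩
    · intro i
      refine Fin.addCases (fun i => ?_) (fun i => ?_) i
      · rw [Fin.append_left]; exact hc i
      · rw [Fin.append_right]; exact hd i
    · rw [Fin.sum_univ_add]
      simp only [Fin.append_left, Fin.append_right]

end Pool.Agent.H5.KW
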