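import Pool.Agent.H61.KW.TA

namespace Pool.Agent.H5.KW

open Set Pool.Agent.H61.KV Pool.Agent.H61.KW

theorem pf_THN : T_THN := by
  intro V _ _ _ C q n x hC hq hrk hli hex hx hno
  have hs : ∀ i, (∑ j ∈ Finset.univ.erase i, x j) ∈ Fc C q := by
    intro i
    exact Finset.sum_induction x (fun v => v ∈ Fc C q) (fun a b ha hb => add_fc hC hq ha hb)
      (zero_fc hC hq) (fun j _ => hx j)
  choose ξ h1 h2 h3 using fun i => supp hC hq (hs i) (hno i)
  have hij : ∀ i j, j ≠ i → ξ i (x j) = 0 := by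
    intro i j hj
    have h4 := h2 i
    rw [map_sum] at h4
    exact (Finset.sum_eq_zero_iff_of_nonneg (fun j _ => h1 i _ (hx j))).mp h4 j (by simp [hj])
  have hspan : Submodule.span ℝ (Set.range x) = Sp C q := by
    apply Submodule.eq_of_le_of_finrank_eq
    · rw [Submodule.span_le]
      rintro _ ⟨i, rfl⟩
      exact mem_sp (hx i)
    · rw [finrank_span_eq_card hli, Fintype.card_fin]
      exact hrk.symm
  have hmem : ∀ v ∈ Sp C q, ∃ c : Fin n → ℝ, v = ∑ i, c i • x i := by
    intro v hv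
    rw [← hspan] at hv
    obtain ⟨c, hc⟩ := (Submodule.mem_span_range_iff_exists_fun ℝ).1 hv
    exact ⟨c, hc.symm⟩
  have hval : ∀ i (c : Fin n → ℝ), ξ i (∑ j, c j • x j) = c i * ξ i (x i) := by
    intro i c
    rw [map_sum, Finset.sum_eq_single i]
    · rw [map_smul, smul_eq_mul]
    · intro j _ hj
      rw [map_smul, hij i j hj, smul_zero]
    · intro h
      exact absurd (Finset.mem_univ i) h
  have hpos : ∀ i, 0 < ξ i (x i) := by
    intro i
    rcases (h1 i _ (hx i)).eq_or_lt with h | h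
    · exfalso
      obtain ⟨c, hc⟩ := hmem q (self_sp hC hq)
      have h4 := h3 i
      rw [hc, hval, ← h, mul_zero] at h4
      exact lt_irrefl _ h4
    · exact h
  refine ⟨hli, hex, hx, fun r hr => ?_⟩
  obtain ⟨c, rfl⟩ := hmem r (mem_sp hr)
  refine ⟨c, fun i => ?_, rfl⟩
  have h4 := h1 i _ hr
  rw [hval] at h4
  exact nonneg_of_mul_nonneg_left h4 (hpos i)

end Pool.Agent.H5.KW
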